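import Pool.Agent.Work.MP_433a35_co.GB.Tri.Defs

/-!
# Semantics: completion, relabelling
-/

namespace MP433Tri

open Finset

variable {V : Type*} [Fintype V] (T : Tri V)

theorem full_nonneg (k c : ℕ) : 0 ≤ T.full k c := by
  unfold Tri.full Tri.pcount
  exact Finset.sum_nonneg fun t _ => by split_ifs <;> norm_num

theorem pcount_nonneg (k c : ℕ) (free : List ℕ) : 0 ≤ T.pcount k c free := by
  unfold Tri.pcount
  exact Finset.sum_nonneg fun t _ => by split_ifs <;> norm_num

/-- doubling the binomial -/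
theorem tri_succ (q : ℕ) : (q + 1) * (q + 1 - 1) / 2 = q * (q - 1) / 2 + q := by
  rcases q with _ | q
  · simp
  · simp only [Nat.add_sub_cancel]
    rw [show (q + 1 + 1) * (q + 1) = (q + 1) * q + (q + 1) * 2 by ring]
    rw [Nat.add_mul_div_right _ _ (by norm_num)]

theorem tri_mono {a b : ℕ} (h : a ≤ b) : a * (a - 1) / 2 ≤ b * (b - 1) / 2 :=
  Nat.div_le_div_right (Nat.mul_le_mul h (Nat.sub_le_sub_right h 1))

theorem idx_lt {p q k : ℕ} (h : p < q) (hq : q < k) : idx p q < k * (k - 1) / 2 := by
  have h1 := tri_succ q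
  have h2 : (q + 1) * (q + 1 - 1) / 2 ≤ k * (k - 1) / 2 := tri_mono hq
  unfold idx
  omega

theorem idx_inj {p q p' q' : ℕ} (h : p < q) (h' : p' < q') (e : idx p q = idx p' q') :
    p = p' ∧ q = q' := by
  have hq : q = q' := by
    rcases lt_trichotomy q q' with hlt | heq | hgt
    · have := idx_lt h hlt
      unfold idx at *
      omega
    · exact heq
    · have := idx_lt h' hgt
      unfold idx at *
      omega
  subst hq
  unfold idx at e
  exact ⟨by omega, rfl⟩

theorem exists_idx (k i : ℕ) (hi : i < k * (k - 1) / 2) : ∃ p q, p < q ∧ q < k ∧ idx p q = i := by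
  induction k with
  | zero => simp at hi
  | succ k ih =>
    rw [tri_succ] at hi
    by_cases h : i < k * (k - 1) / 2
    · obtain ⟨p, q, h1, h2, h3⟩ := ih h
      exact ⟨p, q, h1, by omega, h3⟩
    · exact ⟨i - k * (k - 1) / 2, k, by omega, by omega, by unfold idx; omega⟩

theorem dig_add_self {c i x : ℕ} (hc : dig c i = 0) (hx : x < 4) : dig (c + x * 4 ^ i) i = x := by
  unfold dig at *
  rw [Nat.add_mul_div_right _ _ (by positivity)]
  omega

theorem dig_add_ne {c i j x : ℕ} (hc : dig c i = 0) (hx : x < 4) (hj : j ≠ i) :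
    dig (c + x * 4 ^ i) j = dig c j := by
  unfold dig at *
  rcases lt_or_gt_of_ne hj with h | h
  · obtain ⟨d, rfl⟩ : ∃ d, i = j + 1 + d := ⟨i - (j + 1), by omega⟩
    rw [show x * 4 ^ (j + 1 + d) = (4 * (x * 4 ^ d)) * 4 ^ j by ring,
      Nat.add_mul_div_right _ _ (by positivity)]
    omega
  · obtain ⟨d, rfl⟩ : ∃ d, j = i + 1 + d := ⟨j - (i + 1), by omega⟩
    rw [show 4 ^ (i + 1 + d) = 4 ^ i * 4 * 4 ^ d by ring, ← Nat.div_div_eq_div_mul,
      ← Nat.div_div_eq_div_mul, ← Nat.div_div_eq_div_mul, ← Nat.div_div_eq_div_mul,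
      Nat.add_mul_div_right _ _ (by positivity)]
    congr 2
    omega

/-- completion of a free pair -/
theorem pcount_cons (k c i : ℕ) (free : List ℕ) (hi : i < k * (k - 1) / 2) (hf : i ∉ free)
    (hc : dig c i = 0) :
    T.pcount k c (i :: free) =
      T.pcount k c free + T.pcount k (c + 4 ^ i) free + T.pcount k (c + 2 * 4 ^ i) free := by
  obtain ⟨p, q, hpq, hqk, hidx⟩ := exists_idx k i hi
  unfold Tri.pcount
  rw [← Finset.sum_add_distrib, ← Finset.sum_add_distrib]
  refine Finset.sum_congr rfl fun t _ => ?_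
  have key : ∀ x, x < 4 → (T.Real k (c + x * 4 ^ i) free t ↔
      (T.Real k c (i :: free) t ∧ T.col (t ⟨p, by omega⟩) (t ⟨q, hqk⟩) = x)) := by
    intro x hx
    constructor
    · intro h
      refine ⟨fun a b hab hn => ?_, ?_⟩
      · rw [List.mem_cons, not_or] at hn
        rw [h a b hab hn.2, dig_add_ne hc hx hn.1]
      · have := h ⟨p, by omega⟩ ⟨q, hqk⟩ hpq (by simpa [hidx] using hf)
        rw [this]
        simp only [hidx]
        exact dig_add_self hc hx
    · rintro ⟨h, h2⟩ a b hab hn
      by_cases he : idx a b = i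
      · obtain ⟨ha, hb⟩ := idx_inj hab hpq (he.trans hidx.symm)
        have ha' : a = ⟨p, by omega⟩ := Fin.ext ha
        have hb' : b = ⟨q, hqk⟩ := Fin.ext hb
        rw [he, ha', hb', h2, dig_add_self hc hx]
      · rw [h a b hab (by simp [he, hn]), dig_add_ne hc hx he]
  have k0 := key 0 (by norm_num)
  have k1 := key 1 (by norm_num)
  have k2 := key 2 (by norm_num)
  simp only [zero_mul, add_zero, one_mul] at k0 k1
  have hlt := T.lt3 (t ⟨p, by omega⟩) (t ⟨q, hqk⟩)
  rw [if_congr k0 rfl rfl, if_congr k1 rfl rfl, if_congr k2 rfl rfl]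
  by_cases hR : T.Real k c (i :: free) t
  · have h3 : T.col (t ⟨p, by omega⟩) (t ⟨q, hqk⟩) = 0 ∨ T.col (t ⟨p, by omega⟩) (t ⟨q, hqk⟩) = 1 ∨
        T.col (t ⟨p, by omega⟩) (t ⟨q, hqk⟩) = 2 := by omega
    rcases h3 with h3 | h3 | h3 <;> simp [hR, h3]
  · simp [hR]

theorem dig_relab (n c w i : ℕ) (hi : i < n) : dig (relab n c w) i = dig c (w / 32 ^ i % 32) := by
  induction n generalizing w i with
  | zero => omega
  | succ n ih =>
    rw [relab]
    rcases i with _ | i
    · have : dig c (w % 32) < 4 := Nat.mod_lt _ (by norm_num)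
      simp only [pow_zero, Nat.div_one]
      conv_lhs => rw [dig]
      simp only [pow_zero, Nat.div_one]
      omega
    · have h1 : dig c (w % 32) < 4 := Nat.mod_lt _ (by norm_num)
      have h2 := ih (w / 32) i (by omega)
      rw [pow_succ', ← Nat.div_div_eq_div_mul, ← h2]
      conv_lhs => rw [dig]
      rw [pow_succ', ← Nat.div_div_eq_div_mul]
      unfold dig
      congr 2
      unfold dig at h1
      omega

/-- relabelling -/
theorem full_relab (k c w s : ℕ) (hk : k ≤ 6) (h : permOK k w s = true) :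
    T.full k (relab (k * (k - 1) / 2) c w) = T.full k c := by
  unfold permOK at h
  simp only [Bool.and_eq_true, List.all_eq_true, List.mem_range, decide_eq_true_eq, bne_iff_ne,
    ne_eq, beq_iff_eq] at h
  obtain ⟨h1, h2⟩ := h
  let f : Fin k → Fin k := fun p => ⟨s / 8 ^ (p : ℕ) % 8, h1 p p.2⟩
  have hinj : Function.Injective f := by
    intro a b hab
    have hab' : s / 8 ^ (a : ℕ) % 8 = s / 8 ^ (b : ℕ) % 8 := congrArg Fin.val hab
    rcases lt_trichotomy (a : ℕ) b with hl | he | hg
    · exact absurd hab' (h2 b b.2 a hl).1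
    · exact Fin.ext he
    · exact absurd hab'.symm (h2 a a.2 b hg).1
  have hbij : Function.Bijective f := Finite.injective_iff_bijective.mp hinj
  let σ : Fin k ≃ Fin k := Equiv.ofBijective f hbij
  have hdig : ∀ p q : Fin k, p < q → dig (relab (k * (k - 1) / 2) c w) (idx p q) =
      dig c (if f p < f q then idx (f p) (f q) else idx (f q) (f p)) := by
    intro p q hpq
    rw [dig_relab _ _ _ _ (idx_lt hpq q.2), (h2 q q.2 p hpq).2]
    rfl
  have hne : ∀ p q : Fin k, p < q → f p ≠ f q := fun p q hpq e => by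
    exact absurd (hinj e) (ne_of_lt hpq)
  unfold Tri.full Tri.pcount
  refine Fintype.sum_equiv (Equiv.arrowCongr σ (Equiv.refl V)) _ _ fun t => ?_
  have hre : T.Real k (relab (k * (k - 1) / 2) c w) [] t ↔
      T.Real k c [] (Equiv.arrowCongr σ (Equiv.refl V) t) := by
    have happ : ∀ p : Fin k, (Equiv.arrowCongr σ (Equiv.refl V) t) (f p) = t p := by
      intro p
      have : σ.symm (f p) = p := σ.symm_apply_apply p
      simp [Equiv.arrowCongr, this]
    constructor
    · intro hR p' q' hpq _
      obtain ⟨p, rfl⟩ := hbij.2 p'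
      obtain ⟨q, rfl⟩ := hbij.2 q'
      rw [happ, happ]
      rcases lt_trichotomy p q with hl | he | hg
      · have e := hR p q hl (by simp)
        rw [hdig p q hl, if_pos hpq] at e
        exact e
      · exact absurd (he ▸ hpq) (lt_irrefl _)
      · have e := hR q p hg (by simp)
        rw [hdig q p hg, if_neg (not_lt.mpr (le_of_lt hpq))] at e
        rw [T.symm]
        exact e
    · intro hR p q hpq _
      rw [hdig p q hpq]
      by_cases hlt : f p < f q
      · have e := hR (f p) (f q) hlt (by simp)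
        rw [happ, happ] at e
        rw [if_pos hlt]
        exact e
      · have hgt : f q < f p := lt_of_le_of_ne (not_lt.mp hlt) (fun e => hne p q hpq e.symm)
        have e := hR (f q) (f p) hgt (by simp)
        rw [happ, happ] at e
        rw [if_neg hlt, T.symm]
        exact e
  exact if_congr hre rfl rfl

end MP433Tri
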