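import Pool.Agent.Work.MP_433a35_co.GB.Tri.Base

/-!
# Degree rows
-/

namespace MP433Tri

open Finset

variable {V : Type*} [Fintype V] (T : Tri V)

theorem dig_eq_zero {c i : ℕ} (h : c < 4 ^ i) : dig c i = 0 := by
  unfold dig; rw [Nat.div_eq_of_lt h]

theorem sum_snoc {k : ℕ} (f : (Fin (k + 1) → V) → ℝ) :
    ∑ t : Fin (k + 1) → V, f t = ∑ t : Fin k → V, ∑ v : V, f (Fin.snoc t v) := by
  rw [← (Fin.snocEquiv (fun _ : Fin (k + 1) => V)).sum_comp, Fintype.sum_prod_type_right]
  rfl

omit [Fintype V] in
theorem real_snoc (k p i x : ℕ) (hi : i < k) (hp : p < 4 ^ (k * (k - 1) / 2)) (hx : x < 4)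
    (t : Fin k → V) (v : V) :
    T.Real (k + 1) (p + x * 4 ^ idx i k)
      (((List.range k).filter fun y => y != i).map fun y => idx y k) (Fin.snoc t v) ↔
    (T.Real k p [] t ∧ T.col (t ⟨i, hi⟩) v = x) := by
  have hidx : ∀ y, k * (k - 1) / 2 ≤ idx y k := fun y => Nat.le_add_right _ _
  have h0 : dig p (idx i k) = 0 := by
    apply dig_eq_zero
    exact lt_of_lt_of_le hp (Nat.pow_le_pow_right (by norm_num) (hidx i))
  constructor
  · intro h
    refine ⟨fun a b hab _ => ?_, ?_⟩
    · have hlt := idx_lt (p := a) (q := b) hab b.2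
      have hne : idx a b ≠ idx i k := by have := hidx i; omega
      have := h a.castSucc b.castSucc hab (by
        simp only [Fin.val_castSucc, List.mem_map, not_exists, not_and]
        intro y _ e
        have := hidx y
        omega)
      simpa [Fin.snoc_castSucc, dig_add_ne h0 hx hne] using this
    · have := h (⟨i, hi⟩ : Fin k).castSucc (Fin.last k) (Fin.castSucc_lt_last _) (by
        simp only [Fin.val_castSucc, Fin.val_last, List.mem_map, not_exists, not_and,
          List.mem_filter, List.mem_range, bne_iff_ne, ne_eq]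
        rintro y ⟨hy, hne⟩ e
        exact hne (idx_inj hy hi e).1)
      rw [Fin.snoc_castSucc, Fin.snoc_last] at this
      rw [this]
      exact dig_add_self h0 hx
  · rintro ⟨hR, hc⟩ a b hab hn
    induction b using Fin.lastCases with
    | last =>
      induction a using Fin.lastCases with
      | last => exact absurd hab (lt_irrefl _)
      | cast a =>
        have hai : (a : ℕ) = i := by
          by_contra hne
          apply hn
          simp only [Fin.val_castSucc, Fin.val_last, List.mem_map, List.mem_filter,
            List.mem_range, bne_iff_ne, ne_eq]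
          exact ⟨a, ⟨a.2, hne⟩, rfl⟩
        have ha : a = ⟨i, hi⟩ := Fin.ext hai
        subst ha
        rw [Fin.snoc_castSucc, Fin.snoc_last, hc]
        exact (dig_add_self h0 hx).symm
    | cast b =>
      induction a using Fin.lastCases with
      | last =>
        exact absurd hab (not_lt.mpr (le_of_lt (Fin.castSucc_lt_last _)))
      | cast a =>
        have hab' : a < b := hab
        have hlt := idx_lt (p := a) (q := b) hab' b.2
        have hne : idx a b ≠ idx i k := by have := hidx i; omega
        have := hR a b hab' (by simp)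
        simpa [Fin.snoc_castSucc, dig_add_ne h0 hx hne] using this

theorem deg_row (D : ℝ) (hD : ∀ v, T.deg v ≤ D) (k p i : ℕ) (hi : i < k)
    (hp : p < 4 ^ (k * (k - 1) / 2)) (w : ℤ) (hw : 0 ≤ w) :
    srcVal T (k + 1) (rowSrc k w p i) ≤ w * D * T.full k p := by
  have h1 := real_snoc T k p i 1 hi hp (by norm_num)
  have h2 := real_snoc T k p i 2 hi hp (by norm_num)
  rw [one_mul] at h1
  have key : T.pcount (k + 1) (p + 4 ^ idx i k)
        (((List.range k).filter fun y => y != i).map fun y => idx y k) +
      T.pcount (k + 1) (p + 2 * 4 ^ idx i k)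
        (((List.range k).filter fun y => y != i).map fun y => idx y k) ≤ D * T.full k p := by
    unfold Tri.full Tri.pcount
    rw [← Finset.sum_add_distrib, sum_snoc, Finset.mul_sum]
    refine Finset.sum_le_sum fun t _ => ?_
    by_cases hR : T.Real k p [] t
    · rw [if_pos hR, mul_one]
      refine le_trans (le_of_eq ?_) (hD (t ⟨i, hi⟩))
      unfold Tri.deg
      refine Finset.sum_congr rfl fun v _ => ?_
      rw [if_congr (h1 t v) rfl rfl, if_congr (h2 t v) rfl rfl]
      have hlt := T.lt3 (t ⟨i, hi⟩) v
      have h3 : T.col (t ⟨i, hi⟩) v = 0 ∨ T.col (t ⟨i, hi⟩) v = 1 ∨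
        T.col (t ⟨i, hi⟩) v = 2 := by omega
      rcases h3 with h3 | h3 | h3 <;> simp [hR, h3]
    · rw [if_neg hR, mul_zero]
      refine le_of_eq (Finset.sum_eq_zero fun v _ => ?_)
      rw [if_congr (h1 t v) rfl rfl, if_congr (h2 t v) rfl rfl]
      simp [hR]
  have hw' : (0 : ℝ) ≤ w := by exact_mod_cast hw
  have := mul_le_mul_of_nonneg_left key hw'
  unfold srcVal rowSrc
  simp only [List.map_cons, List.map_nil, List.sum_cons, List.sum_nil, add_zero]
  rw [mul_add, ← mul_assoc] at this
  exact this

end MP433Tri
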