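import Pool.Agent.Work.MP_433a35_co.GB.Tri.Glue
import Pool.Agent.Work.MP_433a35_co.GB.Tri.Deg

/-!
# Blocks of squares and the final inequality
-/

namespace MP433Tri

open Finset

/-- quadratic form of an integer matrix given by its rows -/
noncomputable def qf (Q : List (List ℤ)) (x : ℕ → ℝ) : ℝ :=
  ∑ i ∈ range Q.length, ∑ j ∈ range Q.length, ((Q.getD i []).getD j 0 : ℝ) * x i * x j

/-- a block: root size `s`, flags `(a, F)` with `a` extra positions, symmetric matrix -/
structure Blk where
  s : ℕ
  fl : List (ℕ × ℕ)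
  Q : List (List ℤ)

/-- the products of the block at level `k`, with the sign of the final identity -/
def blkSrc (b : Blk) (k : ℕ) : List Src :=
  (List.range b.fl.length).flatMap fun i => (List.range b.fl.length).flatMap fun j =>
    if b.s + (b.fl.getD i (0, 0)).1 + (b.fl.getD j (0, 0)).1 = k then
      [⟨-((b.Q.getD i []).getD j 0), glue b.s (b.fl.getD i (0, 0)).1 (b.fl.getD j (0, 0)).1
        (b.fl.getD i (0, 0)).2 (b.fl.getD j (0, 0)).2,
        cross b.s (b.fl.getD i (0, 0)).1 (b.fl.getD j (0, 0)).1⟩]
    else []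

end MP433Tri
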