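import Mathlib

/-!
# Three-coloured pattern counts on at most six positions

`idx p q` (`p < q`) numbers the pairs of positions; a code `c : ℕ` has two bits per pair,
`dig c i` is the colour of pair number `i` (0 no edge, 1 edge outside `F`, 2 edge of `F`).
`T.full k c` is the number of tuples `t : Fin k → V` (repetitions allowed) which realise exactly
the code `c`; `T.pcount k c free` leaves the pairs in `free` unconstrained.
-/

namespace MP433Tri

open Finset

/-- number of the pair `p < q` -/
def idx (p q : ℕ) : ℕ := q * (q - 1) / 2 + p

/-- colour of pair number `i` -/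
def dig (c i : ℕ) : ℕ := c / 4 ^ i % 4

/-- a finite three-coloured complete graph: `col u v` is `0`, `1` or `2` -/
structure Tri (V : Type*) where
  col : V → V → ℕ
  symm : ∀ u v, col u v = col v u
  irr : ∀ v, col v v = 0
  lt3 : ∀ u v, col u v < 3

namespace Tri

variable {V : Type*} [Fintype V] (T : Tri V)

/-- `t` realises the code `c` on the pairs outside `free` -/
def Real (k c : ℕ) (free : List ℕ) (t : Fin k → V) : Prop :=
  ∀ p q : Fin k, p < q → idx p q ∉ free → T.col (t p) (t q) = dig c (idx p q)

instance (k c : ℕ) (free : List ℕ) (t : Fin k → V) : Decidable (T.Real k c free t) := by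
  unfold Real; infer_instance

/-- number of tuples realising the code outside `free` -/
noncomputable def pcount (k c : ℕ) (free : List ℕ) : ℝ :=
  ∑ t : Fin k → V, if T.Real k c free t then 1 else 0

/-- number of tuples realising the code -/
noncomputable def full (k c : ℕ) : ℝ := T.pcount k c []

/-- degree in the graph of the colours 1 and 2 -/
noncomputable def deg (v : V) : ℝ := ∑ w : V, if T.col v w = 0 then (0 : ℝ) else 1

/-- number of the ordered pairs of ordered `F`-edges which are not joined -/
noncomputable def bad : ℝ :=
  ∑ a : V, ∑ b : V, ∑ c : V, ∑ d : V,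
    if T.col a b = 2 ∧ T.col c d = 2 ∧ T.col a c = 0 ∧ T.col a d = 0 ∧ T.col b c = 0 ∧
      T.col b d = 0 then (1 : ℝ) else 0

/-- number of extensions of the root tuple `r` to the flag `F` with `a` further positions -/
noncomputable def fl (s a F : ℕ) (r : Fin s → V) : ℝ :=
  ∑ u : Fin a → V, if T.Real (s + a) F [] (Fin.append r u) then (1 : ℝ) else 0

end Tri

/-- a weighted partial code -/
structure Src where
  w : ℤ
  c : ℕ
  free : List ℕ

/-- value of a list of weighted partial codes -/
noncomputable def srcVal {V : Type*} [Fintype V] (T : Tri V) (k : ℕ) (L : List Src) : ℝ :=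
  (L.map fun x => (x.w : ℝ) * T.pcount k x.c x.free).sum

/-- total absolute weight of all completions -/
def srcErr (L : List Src) : ℕ := (L.map fun x => x.w.natAbs * 3 ^ x.free.length).sum

/-- value of a weighted list of codes -/
noncomputable def ev {V : Type*} [Fintype V] (T : Tri V) (k : ℕ) (L : List (ℕ × ℤ)) : ℝ :=
  (L.map fun x => (x.2 : ℝ) * T.full k x.1).sum

/-- the pairs between the `a` positions `s, ..` and the `b` positions `s + a, ..` -/
def cross (s a b : ℕ) : List ℕ :=
  (List.range b).flatMap fun y => (List.range a).map fun x => idx (s + x) (s + a + y)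

/-- the digits of `G` on the pairs with upper position `s + y` are moved to `s + a + y` -/
def glueRow (s a G y : ℕ) : ℕ :=
  ((List.range (s + y)).map fun x =>
    dig G (idx x (s + y)) * 4 ^ idx (if x < s then x else a + x) (s + a + y)).sum

/-- product of the flag `F` (on `s + a` positions) and the flag `G` (on `s + b` positions) -/
def glue (s a b F G : ℕ) : ℕ := F + ((List.range b).map fun y => glueRow s a G y).sum

/-- the flags have the same root and `F` has no digits outside its pairs -/
def glueOK (s a F G : ℕ) : Bool :=
  decide (F < 4 ^ ((s + a) * (s + a - 1) / 2)) &&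
  (List.range (s * (s - 1) / 2)).all fun i => dig F i == dig G i

/-- sources of the degree row: the new position `k` is joined to position `i` -/
def rowSrc (k : ℕ) (w : ℤ) (p i : ℕ) : List Src :=
  [⟨w, p + 4 ^ idx i k, ((List.range k).filter fun x => x != i).map fun x => idx x k⟩,
   ⟨w, p + 2 * 4 ^ idx i k, ((List.range k).filter fun x => x != i).map fun x => idx x k⟩]

/-- two `F`-edges on the positions `0,1` and `2,3` which are not joined, and every further position
is joined to an earlier one -/
def viol (k H : ℕ) : Bool :=
  dig H 0 == 2 && dig H 5 == 2 && dig H 1 == 0 && dig H 2 == 0 && dig H 3 == 0 && dig H 4 == 0 &&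
  (k == 4 ||
    ((dig H 6 != 0 || dig H 7 != 0 || dig H 8 != 0 || dig H 9 != 0) &&
      (k == 5 ||
        (k == 6 && (dig H 10 != 0 || dig H 11 != 0 || dig H 12 != 0 || dig H 13 != 0 ||
          dig H 14 != 0)))))

/-- `s` packs (base 8) a permutation of the positions `< k`, and the pair with number `idx p q`
is sent to the pair with number `dig32 w (idx p q)` -/
def permOK (k w s : ℕ) : Bool :=
  (List.range k).all (fun p => decide (s / 8 ^ p % 8 < k)) &&
  (List.range k).all (fun q => (List.range q).all (fun p =>
    s / 8 ^ p % 8 != s / 8 ^ q % 8 &&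
    w / 32 ^ idx p q % 32 ==
      (if s / 8 ^ p % 8 < s / 8 ^ q % 8 then idx (s / 8 ^ p % 8) (s / 8 ^ q % 8)
        else idx (s / 8 ^ q % 8) (s / 8 ^ p % 8))))

/-- relabelled code: the new colour of pair `i` is the old colour of pair `dig32 w i` -/
def relab : ℕ → ℕ → ℕ → ℕ
  | 0, _, _ => 0
  | (n + 1), c, w => 4 * relab n c (w / 32) + dig c (w % 32)

end MP433Tri
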