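import Pool.Agent.Work.MP_433a35_co.GB.Tri.Base

/-!
# Products of flags
-/

namespace MP433Tri

open Finset

variable {V : Type*} [Fintype V] (T : Tri V)

/-- sum of the digits `x.2` at the places `x.1` -/
def lsum (L : List (ℕ × ℕ)) : ℕ := (L.map fun x => x.2 * 4 ^ x.1).sum

theorem dig_lsum_not_mem (L : List (ℕ × ℕ)) (c : ℕ) (hL : (L.map Prod.fst).Nodup)
    (hd : ∀ x ∈ L, x.2 < 4) (h0 : ∀ x ∈ L, dig c x.1 = 0) (i : ℕ) (hi : i ∉ L.map Prod.fst) :
    dig (c + lsum L) i = dig c i := by
  induction L generalizing c with
  | nil => simp [lsum]
  | cons x L ih =>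
    simp only [List.map_cons, List.nodup_cons, List.mem_cons, not_or] at hL hi
    have hx := hd x (by simp)
    have hx0 := h0 x (by simp)
    have e : c + lsum (x :: L) = (c + x.2 * 4 ^ x.1) + lsum L := by
      simp only [lsum, List.map_cons, List.sum_cons]; ring
    rw [e, ih (c + x.2 * 4 ^ x.1) hL.2 (fun y hy => hd y (by simp [hy])) ?_ hi.2,
      dig_add_ne hx0 hx hi.1]
    intro y hy
    rw [dig_add_ne hx0 hx, h0 y (by simp [hy])]
    rintro e
    apply hL.1
    rw [← e]
    exact List.mem_map_of_mem hy

theorem dig_lsum_mem (L : List (ℕ × ℕ)) (c : ℕ) (hL : (L.map Prod.fst).Nodup)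
    (hd : ∀ x ∈ L, x.2 < 4) (h0 : ∀ x ∈ L, dig c x.1 = 0) (z : ℕ × ℕ) (hz : z ∈ L) :
    dig (c + lsum L) z.1 = z.2 := by
  induction L generalizing c with
  | nil => simp at hz
  | cons x L ih =>
    simp only [List.map_cons, List.nodup_cons] at hL
    have hx := hd x (by simp)
    have hx0 := h0 x (by simp)
    have e : c + lsum (x :: L) = (c + x.2 * 4 ^ x.1) + lsum L := by
      simp only [lsum, List.map_cons, List.sum_cons]; ring
    have h1 : ∀ y ∈ L, dig (c + x.2 * 4 ^ x.1) y.1 = 0 := by
      intro y hy
      rw [dig_add_ne hx0 hx, h0 y (by simp [hy])]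
      rintro e
      apply hL.1
      rw [← e]
      exact List.mem_map_of_mem hy
    rw [e]
    rcases List.mem_cons.mp hz with rfl | hz
    · rw [dig_lsum_not_mem L _ hL.2 (fun y hy => hd y (by simp [hy])) h1 _ hL.1,
        dig_add_self hx0 hx]
    · exact ih (c + x.2 * 4 ^ x.1) hL.2 (fun y hy => hd y (by simp [hy])) h1 hz

/-- the digits added by `glue` -/
def glueList (s a b G : ℕ) : List (ℕ × ℕ) :=
  (List.range b).flatMap fun y => (List.range (s + y)).map fun x =>
    (idx (if x < s then x else a + x) (s + a + y), dig G (idx x (s + y)))

theorem sum_flatMap' {α : Type*} (l : List α) (g : α → List ℕ) :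
    (l.flatMap g).sum = (l.map fun x => (g x).sum).sum := by
  induction l with
  | nil => simp
  | cons x l ih => simp [List.flatMap_cons, ih]

theorem glue_eq (s a b F G : ℕ) : glue s a b F G = F + lsum (glueList s a b G) := by
  unfold glue lsum glueList
  rw [List.map_flatMap, sum_flatMap']
  congr 2
  apply List.map_congr_left
  intro y _
  unfold glueRow
  rw [List.map_map]
  rfl

theorem glue_lt {s a x y : ℕ} (hx : x < s + y) : (if x < s then x else a + x) < s + a + y := by
  split_ifs <;> omega

theorem glueList_nodup (s a b G : ℕ) : ((glueList s a b G).map Prod.fst).Nodup := by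
  unfold glueList
  rw [List.map_flatMap, List.nodup_flatMap]
  constructor
  · intro y _
    rw [List.map_map]
    refine List.Nodup.map_on ?_ List.nodup_range
    intro x hx x' hx' e
    rw [List.mem_range] at hx hx'
    simp only [Function.comp] at e
    have := (idx_inj (glue_lt hx) (glue_lt hx') e).1
    split_ifs at this <;> omega
  · refine List.Nodup.pairwise_of_forall_ne List.nodup_range ?_
    intro y _ y' _ hne i hi hi'
    simp only [List.mem_map, List.mem_range, exists_exists_and_eq_and] at hi hi'
    obtain ⟨x, hx, e⟩ := hi
    obtain ⟨x', hx', e'⟩ := hi'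
    have := (idx_inj (glue_lt hx) (glue_lt hx') (e.trans e'.symm)).2
    omega

theorem glueList_lt (s a b G : ℕ) : ∀ x ∈ glueList s a b G, x.2 < 4 := by
  intro x hx
  unfold glueList at hx
  simp only [List.mem_flatMap, List.mem_map] at hx
  obtain ⟨y, _, z, _, rfl⟩ := hx
  exact Nat.mod_lt _ (by norm_num)

theorem glueList_ge (s a b G : ℕ) :
    ∀ x ∈ glueList s a b G, (s + a) * (s + a - 1) / 2 ≤ x.1 := by
  intro x hx
  unfold glueList at hx
  simp only [List.mem_flatMap, List.mem_map] at hx
  obtain ⟨y, _, z, _, rfl⟩ := hx
  refine le_trans (tri_mono (show s + a ≤ s + a + y by omega)) (Nat.le_add_right _ _)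

theorem dig_glue_low (s a b F G p q : ℕ) (hF : F < 4 ^ ((s + a) * (s + a - 1) / 2)) (hpq : p < q)
    (hq : q < s + a) : dig (glue s a b F G) (idx p q) = dig F (idx p q) := by
  rw [glue_eq]
  refine dig_lsum_not_mem _ _ (glueList_nodup s a b G) (glueList_lt s a b G) ?_ _ ?_
  · intro x hx
    unfold dig
    rw [Nat.div_eq_of_lt (lt_of_lt_of_le hF
      (Nat.pow_le_pow_right (by norm_num) (glueList_ge s a b G x hx)))]
  · intro h
    obtain ⟨x, hx, e⟩ := List.mem_map.mp h
    have := glueList_ge s a b G x hx
    have := idx_lt hpq hq
    omega

theorem dig_glue_high (s a b F G x y : ℕ) (hF : F < 4 ^ ((s + a) * (s + a - 1) / 2))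
    (hx : x < s + y) (hy : y < b) :
    dig (glue s a b F G) (idx (if x < s then x else a + x) (s + a + y)) =
      dig G (idx x (s + y)) := by
  rw [glue_eq]
  refine dig_lsum_mem _ _ (glueList_nodup s a b G) (glueList_lt s a b G) ?_
    (idx (if x < s then x else a + x) (s + a + y), dig G (idx x (s + y))) ?_
  · intro x hx
    unfold dig
    rw [Nat.div_eq_of_lt (lt_of_lt_of_le hF
      (Nat.pow_le_pow_right (by norm_num) (glueList_ge s a b G x hx)))]
  · unfold glueList
    simp only [List.mem_flatMap, List.mem_map, List.mem_range]
    exact ⟨y, hy, x, hx, rfl⟩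

theorem not_mem_cross_low {s a b p q : ℕ} (hpq : p < q) (hq : q < s + a) :
    idx p q ∉ cross s a b := by
  unfold cross
  simp only [List.mem_flatMap, List.mem_map, List.mem_range, not_exists, not_and]
  intro y _ x hx e
  have := (idx_inj (show s + x < s + a + y by omega) hpq e).2
  omega

theorem not_mem_cross_high {s a b p y : ℕ} (hp : p < s + a + y) (h : p < s ∨ s + a ≤ p) :
    idx p (s + a + y) ∉ cross s a b := by
  unfold cross
  simp only [List.mem_flatMap, List.mem_map, List.mem_range, not_exists, not_and]
  intro y' _ x hx e
  have := (idx_inj (show s + x < s + a + y' by omega) hp e).1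
  omega

omit [Fintype V] in
theorem real_glue (s a b F G : ℕ) (h : glueOK s a F G = true) (r : Fin s → V) (u : Fin a → V)
    (u' : Fin b → V) :
    T.Real (s + a + b) (glue s a b F G) (cross s a b) (Fin.append (Fin.append r u) u') ↔
      (T.Real (s + a) F [] (Fin.append r u) ∧ T.Real (s + b) G [] (Fin.append r u')) := by
  unfold glueOK at h
  simp only [Bool.and_eq_true, decide_eq_true_eq, List.all_eq_true, List.mem_range,
    beq_iff_eq] at h
  obtain ⟨hF, hFG⟩ := h
  constructor
  · intro hR
    have hA : T.Real (s + a) F [] (Fin.append r u) := by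
      intro p q hpq _
      have := hR (Fin.castAdd b p) (Fin.castAdd b q) hpq (by
        simpa using not_mem_cross_low (b := b) (show (p : ℕ) < q from hpq) q.2)
      rw [Fin.append_left, Fin.append_left] at this
      rw [this]
      simpa using dig_glue_low s a b F G p q hF hpq q.2
    refine ⟨hA, ?_⟩
    intro p q hpq _
    induction q using Fin.addCases with
    | left q =>
      induction p using Fin.addCases with
      | left p =>
        have := hA (Fin.castAdd a p) (Fin.castAdd a q) hpq (by simp)
        rw [Fin.append_left, Fin.append_left] at this ⊢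
        rw [this]
        simpa using hFG (idx p q) (idx_lt (show (p : ℕ) < q from hpq) q.2)
      | right p =>
        exfalso
        have : s + (p : ℕ) < q := hpq
        have := q.2
        omega
    | right y =>
      induction p using Fin.addCases with
      | left p =>
        have := hR (Fin.castAdd b (Fin.castAdd a p)) (Fin.natAdd (s + a) y) (by
          show (p : ℕ) < s + a + y
          have := p.2
          omega) (by
          simpa using not_mem_cross_high (s := s) (a := a) (b := b) (y := y)
            (show (p : ℕ) < s + a + y by have := p.2; omega) (Or.inl p.2))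
        rw [Fin.append_left, Fin.append_left, Fin.append_right] at this
        rw [Fin.append_left, Fin.append_right, this]
        have e := dig_glue_high s a b F G p y hF (by have := p.2; omega) y.2
        rw [if_pos p.2] at e
        simpa using e
      | right x =>
        have hxy : (x : ℕ) < y := by
          have : s + (x : ℕ) < s + y := hpq
          omega
        have := hR (Fin.natAdd (s + a) x) (Fin.natAdd (s + a) y) (by
          show s + a + (x : ℕ) < s + a + y
          omega) (by
          simpa using not_mem_cross_high (s := s) (a := a) (b := b) (y := y)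
            (show s + a + (x : ℕ) < s + a + y by omega) (Or.inr (by omega)))
        rw [Fin.append_right, Fin.append_right] at this
        rw [Fin.append_right, Fin.append_right, this]
        have e := dig_glue_high s a b F G (s + x) y hF (by omega) y.2
        rw [if_neg (by omega), show a + (s + (x : ℕ)) = s + a + x by omega] at e
        simpa using e
  · rintro ⟨hA, hB⟩ p q hpq hn
    induction q using Fin.addCases with
    | left q =>
      induction p using Fin.addCases with
      | left p =>
        have hpq' : (p : ℕ) < q := hpq
        rw [Fin.append_left, Fin.append_left, hA p q hpq' (by simp)]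
        simpa using (dig_glue_low s a b F G p q hF hpq' q.2).symm
      | right p =>
        exfalso
        have : s + a + (p : ℕ) < q := hpq
        have := q.2
        omega
    | right y =>
      induction p using Fin.addCases with
      | left p =>
        induction p using Fin.addCases with
        | left p =>
          have := hB (Fin.castAdd b p) (Fin.natAdd s y) (by
            show (p : ℕ) < s + y
            have := p.2
            omega) (by simp)
          rw [Fin.append_left, Fin.append_right] at this
          rw [Fin.append_left, Fin.append_left, Fin.append_right, this]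
          have e := dig_glue_high s a b F G p y hF (by have := p.2; omega) y.2
          rw [if_pos p.2] at e
          simpa using e.symm
        | right x =>
          exfalso
          apply hn
          unfold cross
          simp only [List.mem_flatMap, List.mem_map, List.mem_range]
          exact ⟨y, y.2, x, x.2, rfl⟩
      | right x =>
        have hxy : (x : ℕ) < y := by
          have : s + a + (x : ℕ) < s + a + y := hpq
          omega
        have := hB (Fin.natAdd s x) (Fin.natAdd s y) (by
          show s + (x : ℕ) < s + y
          omega) (by simp)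
        rw [Fin.append_right, Fin.append_right] at this
        rw [Fin.append_right, Fin.append_right, this]
        have e := dig_glue_high s a b F G (s + x) y hF (by omega) y.2
        rw [if_neg (by omega), show a + (s + (x : ℕ)) = s + a + x by omega] at e
        simpa using e.symm

theorem sum_append {m n : ℕ} (f : (Fin (m + n) → V) → ℝ) :
    ∑ t : Fin (m + n) → V, f t = ∑ r : Fin m → V, ∑ u : Fin n → V, f (Fin.append r u) := by
  rw [← (Fin.appendEquiv m n).sum_comp, Fintype.sum_prod_type]
  rfl

theorem glue_sum (s a b F G : ℕ) (h : glueOK s a F G = true) :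
    ∑ r : Fin s → V, T.fl s a F r * T.fl s b G r =
      T.pcount (s + a + b) (glue s a b F G) (cross s a b) := by
  unfold Tri.fl Tri.pcount
  rw [sum_append, sum_append]
  refine Finset.sum_congr rfl fun r _ => ?_
  rw [Finset.sum_mul_sum]
  refine Finset.sum_congr rfl fun u _ => Finset.sum_congr rfl fun u' _ => ?_
  rw [if_congr (real_glue T s a b F G h r u u') rfl rfl]
  by_cases h1 : T.Real (s + a) F [] (Fin.append r u) <;>
    by_cases h2 : T.Real (s + b) G [] (Fin.append r u') <;> simp [h1, h2]

end MP433Tri
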