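import Pool.Agent.Work.MP_433a35_co.GB.Tri.Defs

/-!
# Positive semidefinite integer quadratic forms, in upper triangular form

A quadratic form in `x` is stored as the list of the rows of its upper triangle: the first row
`[a, b, c, ..]` stands for `a x₀² + 2 b x₀ x₁ + 2 c x₀ x₂ + ..`.
-/

namespace MP433Tri

/-- linear form -/
noncomputable def dot : List ℤ → List ℝ → ℝ
  | (a :: v), (x :: xs) => a * x + dot v xs
  | _, _ => 0

/-- value of an upper triangular quadratic form -/
noncomputable def qfu : List (List ℤ) → List ℝ → ℝ
  | (r :: rs), (x :: xs) => (r.headD 0 : ℝ) * x ^ 2 + 2 * x * dot r.tail xs + qfu rs xs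
  | _, _ => 0

/-- addition of lists of possibly different lengths -/
def padd : List ℤ → List ℤ → List ℤ
  | [], v => v
  | u, [] => u
  | (a :: u), (b :: v) => (a + b) :: padd u v

/-- scaling -/
def sml (c : ℤ) (v : List ℤ) : List ℤ := v.map fun a => c * a

/-- addition of quadratic forms -/
def uadd : List (List ℤ) → List (List ℤ) → List (List ℤ)
  | [], v => v
  | u, [] => u
  | (a :: u), (b :: v) => padd a b :: uadd u v

/-- scaling of quadratic forms -/
def usml (c : ℤ) (Q : List (List ℤ)) : List (List ℤ) := Q.map (sml c)

/-- the linear form `v` in the rows of `P` -/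
def vm : List ℤ → List (List ℤ) → List ℤ
  | (a :: v), (p :: P) => padd (sml a p) (vm v P)
  | _, _ => []

/-- square of a linear form -/
def usq : List ℤ → List (List ℤ)
  | [] => []
  | (a :: v) => ((a * a) :: sml a v) :: usq v

/-- twice the product of two linear forms -/
def ubil : List ℤ → List ℤ → List (List ℤ)
  | (a :: u), (b :: v) => ((2 * a * b) :: padd (sml a v) (sml b u)) :: ubil u v
  | _, _ => []

/-- composition of a quadratic form with the linear forms `P` -/
def ucomp : List (List ℤ) → List (List ℤ) → List (List ℤ)
  | (r :: rs), (p :: P) =>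
    uadd (uadd (usml (r.headD 0) (usq p)) (ubil p (vm r.tail P)))
      (ucomp rs P)
  | _, _ => []

/-- sum of squares -/
def usos : List (List ℤ) → List (List ℤ)
  | [] => []
  | (l :: L) => uadd (usq l) (usos L)

/-- diagonal dominance: `b` is the list of the debts of the diagonal entries -/
def ddOK : List (List ℤ) → List ℤ → Bool
  | [], _ => true
  | (r :: rs), b =>
    decide (b.headD 0 + (r.tail.map fun a => |a|).sum ≤ r.headD 0) &&
      ddOK rs (padd b.tail (r.tail.map fun a => |a|))

theorem dot_nil_left (x : List ℝ) : dot [] x = 0 := by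
  cases x <;> rfl

theorem dot_nil_right (v : List ℤ) : dot v [] = 0 := by
  cases v <;> rfl

theorem dot_cons (a : ℤ) (v : List ℤ) (x : ℝ) (xs : List ℝ) :
    dot (a :: v) (x :: xs) = a * x + dot v xs := rfl

theorem qfu_nil_left (x : List ℝ) : qfu [] x = 0 := by
  cases x <;> rfl

theorem qfu_nil_right (Q : List (List ℤ)) : qfu Q [] = 0 := by
  cases Q <;> rfl

theorem qfu_cons (r : List ℤ) (rs : List (List ℤ)) (x : ℝ) (xs : List ℝ) :
    qfu (r :: rs) (x :: xs) = (r.headD 0 : ℝ) * x ^ 2 + 2 * x * dot r.tail xs + qfu rs xs := rfl

theorem dot_padd (u v : List ℤ) (x : List ℝ) : dot (padd u v) x = dot u x + dot v x := by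
  induction u generalizing v x with
  | nil => simp [padd, dot_nil_left]
  | cons a u ih =>
    cases v with
    | nil => simp [padd, dot_nil_left]
    | cons b v =>
      cases x with
      | nil => simp [padd, dot_nil_right]
      | cons x xs =>
        simp only [padd, dot_cons, ih]
        push_cast
        ring

theorem dot_sml (c : ℤ) (v : List ℤ) (x : List ℝ) : dot (sml c v) x = c * dot v x := by
  induction v generalizing x with
  | nil => simp [sml, dot_nil_left]
  | cons a v ih =>
    cases x with
    | nil => simp [dot_nil_right]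
    | cons x xs =>
      have : sml c (a :: v) = (c * a) :: sml c v := rfl
      rw [this, dot_cons, dot_cons, ih]
      push_cast
      ring

theorem headD_padd (u v : List ℤ) : (padd u v).headD 0 = u.headD 0 + v.headD 0 := by
  cases u <;> cases v <;> simp [padd]

theorem tail_padd (u v : List ℤ) : (padd u v).tail = padd u.tail v.tail := by
  cases u with
  | nil => simp [padd]
  | cons a u =>
    cases v with
    | nil => cases u <;> simp [padd]
    | cons b v => simp [padd]

theorem headD_sml (c : ℤ) (v : List ℤ) : (sml c v).headD 0 = c * v.headD 0 := by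
  cases v <;> simp [sml]

theorem tail_sml (c : ℤ) (v : List ℤ) : (sml c v).tail = sml c v.tail := by
  cases v <;> simp [sml]

theorem qfu_uadd (A B : List (List ℤ)) (x : List ℝ) :
    qfu (uadd A B) x = qfu A x + qfu B x := by
  induction A generalizing B x with
  | nil => simp [uadd, qfu_nil_left]
  | cons a A ih =>
    cases B with
    | nil => simp [uadd, qfu_nil_left]
    | cons b B =>
      cases x with
      | nil => simp [qfu_nil_right]
      | cons x xs =>
        simp only [uadd, qfu_cons, ih, headD_padd, tail_padd, dot_padd]
        push_cast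
        ring

theorem qfu_usml (c : ℤ) (A : List (List ℤ)) (x : List ℝ) :
    qfu (usml c A) x = c * qfu A x := by
  induction A generalizing x with
  | nil => simp [usml, qfu_nil_left]
  | cons a A ih =>
    cases x with
    | nil => simp [qfu_nil_right]
    | cons x xs =>
      have : usml c (a :: A) = sml c a :: usml c A := rfl
      rw [this, qfu_cons, qfu_cons, ih, headD_sml, tail_sml, dot_sml]
      push_cast
      ring

theorem dot_vm (v : List ℤ) (P : List (List ℤ)) (x : List ℝ) :
    dot (vm v P) x = dot v (P.map fun p => dot p x) := by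
  induction v generalizing P with
  | nil => simp [vm, dot_nil_left]
  | cons a v ih =>
    cases P with
    | nil => simp [vm, dot_nil_left, dot_nil_right]
    | cons p P =>
      simp only [vm, dot_padd, dot_sml, ih, List.map_cons, dot_cons]

theorem qfu_usq (v : List ℤ) (x : List ℝ) : qfu (usq v) x = dot v x ^ 2 := by
  induction v generalizing x with
  | nil => simp [usq, qfu_nil_left, dot_nil_left]
  | cons a v ih =>
    cases x with
    | nil => simp [qfu_nil_right, dot_nil_right]
    | cons x xs =>
      simp only [usq, qfu_cons, ih, List.headD_cons, List.tail_cons, dot_sml, dot_cons]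
      push_cast
      ring

theorem qfu_ubil (u v : List ℤ) (x : List ℝ) :
    qfu (ubil u v) x = 2 * dot u x * dot v x := by
  induction u generalizing v x with
  | nil =>
    simp [ubil, qfu_nil_left, dot_nil_left]
  | cons a u ih =>
    cases v with
    | nil => simp [ubil, qfu_nil_left, dot_nil_left]
    | cons b v =>
      cases x with
      | nil => simp [qfu_nil_right, dot_nil_right]
      | cons x xs =>
        simp only [ubil, qfu_cons, List.headD_cons, List.tail_cons, dot_padd, dot_sml, dot_cons]
        rw [ih v xs]
        push_cast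
        ring

theorem qfu_ucomp (Q P : List (List ℤ)) (x : List ℝ) :
    qfu (ucomp Q P) x = qfu Q (P.map fun p => dot p x) := by
  induction Q generalizing P with
  | nil => simp [ucomp, qfu_nil_left]
  | cons r rs ih =>
    cases P with
    | nil => simp [ucomp, qfu_nil_left, qfu_nil_right]
    | cons p P =>
      simp only [ucomp, qfu_uadd, qfu_usml, qfu_usq, qfu_ubil, ih, List.map_cons, qfu_cons, dot_vm]

theorem qfu_usos (L : List (List ℤ)) (x : List ℝ) : 0 ≤ qfu (usos L) x := by
  induction L with
  | nil => simp [usos, qfu_nil_left]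
  | cons l L ih =>
    simp only [usos, qfu_uadd, qfu_usq]
    positivity

/-- weighted sum of the squares -/
noncomputable def dsq : List ℤ → List ℝ → ℝ
  | (b :: v), (x :: xs) => b * x ^ 2 + dsq v xs
  | _, _ => 0

theorem dsq_nil_left (x : List ℝ) : dsq [] x = 0 := by
  cases x <;> rfl

theorem dsq_nil_right (v : List ℤ) : dsq v [] = 0 := by
  cases v <;> rfl

theorem dsq_cons (a : ℤ) (v : List ℤ) (x : ℝ) (xs : List ℝ) :
    dsq (a :: v) (x :: xs) = a * x ^ 2 + dsq v xs := rfl

theorem dsq_head_tail (b : List ℤ) (x : ℝ) (xs : List ℝ) :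
    dsq b (x :: xs) = (b.headD 0 : ℝ) * x ^ 2 + dsq b.tail xs := by
  cases b with
  | nil => simp [dsq_nil_left]
  | cons b v => simp [dsq_cons]

theorem dsq_padd (u v : List ℤ) (x : List ℝ) : dsq (padd u v) x = dsq u x + dsq v x := by
  induction u generalizing v x with
  | nil => simp [padd, dsq_nil_left]
  | cons a u ih =>
    cases v with
    | nil => simp [padd, dsq_nil_left]
    | cons b v =>
      cases x with
      | nil => simp [padd, dsq_nil_right]
      | cons x xs =>
        simp only [padd, dsq_cons, ih]
        push_cast
        ring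

/-- `2 x (v · y) ≥ - |v| x² - ∑ |v_j| y_j²` -/
theorem two_mul_dot_ge (v : List ℤ) (x : ℝ) (y : List ℝ) :
    -(((v.map fun a => |a|).sum : ℤ) : ℝ) * x ^ 2 - dsq (v.map fun a => |a|) y ≤
      2 * x * dot v y := by
  induction v generalizing y with
  | nil => simp [dsq_nil_left, dot_nil_left]
  | cons a v ih =>
    cases y with
    | nil =>
      have h0 : (0 : ℝ) ≤ (((List.map (fun a => |a|) (a :: v)).sum : ℤ) : ℝ) := by
        have : (0 : ℤ) ≤ (List.map (fun a => |a|) (a :: v)).sum := by
          refine List.sum_nonneg ?_
          intro b hb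
          obtain ⟨c, _, rfl⟩ := List.mem_map.1 hb
          exact abs_nonneg c
        exact_mod_cast this
      rw [dot_nil_right, dsq_nil_right]
      nlinarith [sq_nonneg x]
    | cons y ys =>
      have h := ih ys
      simp only [List.map_cons, List.sum_cons, dsq_cons, dot_cons, Int.cast_add, Int.cast_abs]
      have h1 : -(|(a : ℝ)| * x ^ 2) - |(a : ℝ)| * y ^ 2 ≤ 2 * x * (a * y) := by
        have h2 : |(a : ℝ) * (2 * x * y)| ≤ |(a : ℝ)| * (x ^ 2 + y ^ 2) := by
          rw [abs_mul]
          refine mul_le_mul_of_nonneg_left ?_ (abs_nonneg _)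
          rw [abs_le]
          constructor <;> nlinarith [sq_nonneg (x + y), sq_nonneg (x - y)]
        have h3 := neg_abs_le ((a : ℝ) * (2 * x * y))
        nlinarith
      nlinarith

theorem qfu_ddOK (E : List (List ℤ)) (b : List ℤ) (h : ddOK E b = true)
    (y : List ℝ) (hlen : y.length ≤ E.length) : dsq b y ≤ qfu E y := by
  induction E generalizing b y with
  | nil =>
    have : y = [] := by
      cases y with
      | nil => rfl
      | cons a y => simp at hlen
    subst this
    simp [dsq_nil_right, qfu_nil_right]
  | cons r rs ih =>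
    cases y with
    | nil => simp [dsq_nil_right, qfu_nil_right]
    | cons y ys =>
      simp only [ddOK, Bool.and_eq_true, decide_eq_true_eq] at h
      have h1 := ih (padd b.tail (r.tail.map fun a => |a|)) h.2 ys (by simpa using hlen)
      rw [dsq_padd] at h1
      rw [qfu_cons, dsq_head_tail]
      have h2 := two_mul_dot_ge r.tail y ys
      have h3 : ((b.headD 0 : ℤ) : ℝ) + (((r.tail.map fun a => |a|).sum : ℤ) : ℝ) ≤
          ((r.headD 0 : ℤ) : ℝ) := by exact_mod_cast h.1
      nlinarith [sq_nonneg y, mul_le_mul_of_nonneg_right h3 (sq_nonneg y)]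

/-- the quadratic form of a block: squares of the rows `L` plus the diagonally dominant form `E`,
in the linear forms `P` -/
def blkQ (P L E : List (List ℤ)) : List (List ℤ) :=
  uadd (usos (L.map fun l => vm l P)) (ucomp E P)

theorem qfu_blkQ (P L E : List (List ℤ)) (h : ddOK E [] = true) (hl : P.length ≤ E.length)
    (x : List ℝ) : 0 ≤ qfu (blkQ P L E) x := by
  unfold blkQ
  rw [qfu_uadd, qfu_ucomp]
  have h1 := qfu_usos (L.map fun l => vm l P) x
  have h2 := qfu_ddOK E [] h (P.map fun p => dot p x) (by simpa using hl)
  rw [dsq_nil_left] at h2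
  linarith

end MP433Tri
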