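import Pool.Agent.Work.MP_433a35_co.GB.Tri.Defs

/-!
# The number of tuples realising a code with two non-joined `F`-edges
-/

namespace MP433Tri

open Finset

variable {V : Type*} [Fintype V] (T : Tri V)

/-- sums over tuples, last coordinate split off -/
theorem sum_snoc (k : ℕ) (f : (Fin (k + 1) → V) → ℝ) :
    ∑ t, f t = ∑ u : Fin k → V, ∑ v : V, f (Fin.snoc (α := fun _ => V) u v) := by
  rw [← Fintype.sum_prod_type_right' (fun (v : V) (u : Fin k → V) =>
    f (Fin.snoc (α := fun _ => V) u v))]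
  exact (Fintype.sum_equiv (Fin.snocEquiv (fun _ => V)) _ _ fun x => rfl).symm

/-- the code on the first `k` positions -/
theorem real_snoc {k H : ℕ} {u : Fin k → V} {v : V}
    (h : T.Real (k + 1) H [] (Fin.snoc (α := fun _ => V) u v)) :
    T.Real k H [] u ∧ ∀ i : Fin k, T.col (u i) v = dig H (idx i k) := by
  constructor
  · intro p q hpq _
    have := h p.castSucc q.castSucc (by simpa using hpq) (by simp)
    simpa using this
  · intro i
    have := h i.castSucc (Fin.last k) (Fin.castSucc_lt_last i) (by simp)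
    simpa using this

/-- a further position which is joined to an earlier one -/
theorem full_ext (D : ℝ) (hD : ∀ v, T.deg v ≤ D) (k H i : ℕ) (hi : i < k)
    (h : dig H (idx i k) ≠ 0) : T.full (k + 1) H ≤ D * T.full k H := by
  unfold Tri.full Tri.pcount
  rw [sum_snoc, Finset.mul_sum]
  refine Finset.sum_le_sum fun u _ => ?_
  by_cases hu : T.Real k H [] u
  · rw [if_pos hu, mul_one]
    refine le_trans (Finset.sum_le_sum fun v _ => ?_) (hD (u ⟨i, hi⟩))
    by_cases hv : T.Real (k + 1) H [] (Fin.snoc (α := fun _ => V) u v)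
    · have h2 := (real_snoc T hv).2 ⟨i, hi⟩
      rw [if_pos hv, if_neg (by rw [h2]; exact h)]
    · rw [if_neg hv]
      split_ifs <;> norm_num
  · rw [if_neg hu, mul_zero]
    refine le_of_eq (Finset.sum_eq_zero fun v _ => if_neg fun hv => hu (real_snoc T hv).1)

theorem full_four (H : ℕ) (h0 : dig H 0 = 2) (h5 : dig H 5 = 2) (h1 : dig H 1 = 0)
    (h2 : dig H 2 = 0) (h3 : dig H 3 = 0) (h4 : dig H 4 = 0) : T.full 4 H ≤ T.bad := by
  unfold Tri.full Tri.pcount Tri.bad
  rw [sum_snoc, sum_snoc, sum_snoc, sum_snoc, Fintype.sum_unique]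
  refine Finset.sum_le_sum fun a _ => Finset.sum_le_sum fun b _ => Finset.sum_le_sum fun c _ =>
    Finset.sum_le_sum fun d _ => ?_
  by_cases hR : T.Real 4 H [] (Fin.snoc (α := fun _ => V) (Fin.snoc (α := fun _ => V)
      (Fin.snoc (α := fun _ => V) (Fin.snoc (α := fun _ => V) default a) b) c) d)
  · obtain ⟨r3, e3⟩ := real_snoc T hR
    obtain ⟨r2, e2⟩ := real_snoc T r3
    obtain ⟨r1, e1⟩ := real_snoc T r2
    have hab : T.col a b = 2 := (e1 0).trans h0
    have hac : T.col a c = 0 := (e2 0).trans h1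
    have hbc : T.col b c = 0 := (e2 1).trans h2
    have had : T.col a d = 0 := (e3 0).trans h3
    have hbd : T.col b d = 0 := (e3 1).trans h4
    have hcd : T.col c d = 2 := (e3 2).trans h5
    rw [if_pos hR, if_pos ⟨hab, hcd, hac, had, hbc, hbd⟩]
  · rw [if_neg hR]
    split_ifs <;> norm_num

theorem full_viol (D : ℝ) (hD0 : 0 ≤ D) (hD : ∀ v, T.deg v ≤ D) (k H : ℕ)
    (h : viol k H = true) : 4 ≤ k ∧ k ≤ 6 ∧ T.full k H ≤ T.bad * D ^ (k - 4) := by
  unfold viol at h
  simp only [Bool.and_eq_true, Bool.or_eq_true, beq_iff_eq, bne_iff_ne, ne_eq] at h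
  obtain ⟨⟨⟨⟨⟨⟨h0, h5⟩, h1⟩, h2⟩, h3⟩, h4⟩, hk⟩ := h
  have f4 : T.full 4 H ≤ T.bad := full_four T H h0 h5 h1 h2 h3 h4
  rcases hk with rfl | ⟨hx, hk⟩
  · exact ⟨le_rfl, by norm_num, by simpa using f4⟩
  have f5 : T.full 5 H ≤ T.bad * D := by
    have : T.full (4 + 1) H ≤ D * T.full 4 H := by
      rcases hx with ((hx | hx) | hx) | hx
      · exact full_ext T D hD 4 H 0 (by norm_num) hx
      · exact full_ext T D hD 4 H 1 (by norm_num) hx
      · exact full_ext T D hD 4 H 2 (by norm_num) hx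
      · exact full_ext T D hD 4 H 3 (by norm_num) hx
    calc T.full 5 H ≤ D * T.full 4 H := this
      _ ≤ D * T.bad := mul_le_mul_of_nonneg_left f4 hD0
      _ = T.bad * D := mul_comm _ _
  rcases hk with rfl | ⟨rfl, hy⟩
  · exact ⟨by norm_num, by norm_num, by simpa using f5⟩
  · refine ⟨by norm_num, le_rfl, ?_⟩
    have : T.full (5 + 1) H ≤ D * T.full 5 H := by
      rcases hy with (((hy | hy) | hy) | hy) | hy
      · exact full_ext T D hD 5 H 0 (by norm_num) hy
      · exact full_ext T D hD 5 H 1 (by norm_num) hy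
      · exact full_ext T D hD 5 H 2 (by norm_num) hy
      · exact full_ext T D hD 5 H 3 (by norm_num) hy
      · exact full_ext T D hD 5 H 4 (by norm_num) hy
    calc T.full 6 H ≤ D * T.full 5 H := this
      _ ≤ D * (T.bad * D) := mul_le_mul_of_nonneg_left f5 hD0
      _ = T.bad * D ^ (6 - 4) := by norm_num; ring

end MP433Tri
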